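import Mathlib

/-!
# Homomorphisms of a finitely generated group with images of bounded order

For a finitely generated group `K` and a bound `B` there is one subgroup of finite index that is killed by all homomorphisms
of `K` with image of order at most `B`.
-/

set_option autoImplicit false

namespace Pool.Agent.H89.LI

universe u v

theorem finite_hom {K : Type u} [Group K] (hK : Group.FG K) (P : Type v) [Group P] [Finite P] : Finite (K →* P) := by
  obtain ⟨S, hS⟩ := hK.out
  refine Finite.of_injective (fun (φ : K →* P) (s : S) => φ s) ?_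
  intro φ ψ h
  refine MonoidHom.eq_of_eqOn_dense hS fun s hs => ?_
  exact congrFun h ⟨s, hs⟩

/-- one subgroup of finite index for all homomorphisms with image of order at most `B` -/
theorem bounded {K : Type u} [Group K] (hK : Group.FG K) (B : ℕ) :
    ∃ K₁ : Subgroup K, K₁.Normal ∧ K₁.FiniteIndex ∧
      ∀ (T : Type v) [Group T] (f : K →* T), Finite f.range → Nat.card f.range ≤ B → ∀ x ∈ K₁, f x = 1 := by
  have h1 : ∀ m : ℕ, Finite (K →* Equiv.Perm (Fin m)) := fun m => finite_hom hK _
  refine ⟨⨅ (m : Fin (B + 1)), ⨅ (g : K →* Equiv.Perm (Fin m)), g.ker, ?_, ?_, ?_⟩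
  · exact Subgroup.normal_iInf_normal fun m => Subgroup.normal_iInf_normal fun g => inferInstance
  · exact Subgroup.finiteIndex_iInf fun m => Subgroup.finiteIndex_iInf fun g => inferInstance
  · intro T _ f hf hB x hx
    let e : f.range ≃ Fin (Nat.card f.range) := Finite.equivFin f.range
    let c : f.range →* Equiv.Perm (Fin (Nat.card f.range)) :=
      (e.permCongrHom.toMonoidHom).comp (MulAction.toPermHom f.range f.range)
    have hc : Function.Injective c := by
      refine (e.permCongrHom.injective).comp ?_
      exact MulAction.toPerm_injective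
    have h2 : x ∈ (c.comp f.rangeRestrict).ker := by
      have h3 := Subgroup.mem_iInf.1 hx ⟨Nat.card f.range, by omega⟩
      exact Subgroup.mem_iInf.1 h3 (c.comp f.rangeRestrict)
    have h4 : f.rangeRestrict x = 1 := by
      apply hc
      rw [map_one]
      exact h2
    exact congrArg Subtype.val h4

/-- the same for homomorphisms to groups in which every subgroup generated by `k` elements has order at most `F k` -/
theorem bounded' {K : Type u} [Group K] (hK : Group.FG K) (F : ℕ → ℕ) :
    ∃ K₁ : Subgroup K, K₁.Normal ∧ K₁.FiniteIndex ∧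
      ∀ (T : Type v) [Group T], (∀ s : Finset T, Finite (Subgroup.closure (s : Set T)) ∧
        Nat.card (Subgroup.closure (s : Set T)) ≤ F s.card) → ∀ f : K →* T, ∀ x ∈ K₁, f x = 1 := by
  classical
  obtain ⟨S, hS⟩ := hK.out
  obtain ⟨K₁, hn, hf, h⟩ := bounded.{u, v} hK (∑ i ∈ Finset.range (S.card + 1), F i)
  refine ⟨K₁, hn, hf, fun T _ hT f x hx => ?_⟩
  have h1 : f.range = Subgroup.closure ((S.image f : Finset T) : Set T) := by
    rw [Finset.coe_image, ← MonoidHom.map_closure, hS, ← MonoidHom.range_eq_map]
  have h2 := hT (S.image f)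
  rw [← h1] at h2
  refine h T f h2.1 (h2.2.trans ?_) x hx
  refine Finset.single_le_sum (f := F) (fun i _ => Nat.zero_le _) ?_
  rw [Finset.mem_range]
  exact Nat.lt_succ_of_le Finset.card_image_le

end Pool.Agent.H89.LI
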