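import Mathlib

/-!
# Linear representations of finitely generated groups

For a finitely generated group `K` and every `d` there is ONE normal subgroup `K₁` of finite index such that
for all homomorphisms of `K` to `GL_d(F)`, `F` any field, the intersection of the lower central series of `K₁`
is in the kernel.
-/

set_option autoImplicit false

namespace Pool.Agent.H89.LI

open Matrix
open scoped commutatorElement

/-- `ℤ` is a Jacobson ring -/
theorem jacobson_int : IsJacobsonRing ℤ := by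
  rw [isJacobsonRing_iff_prime_eq]
  intro P hP
  by_cases h0 : P = ⊥
  · subst h0
    rw [eq_bot_iff]
    intro x hx
    by_contra hx0
    rw [Ideal.mem_bot] at hx0
    obtain ⟨p, hp1, hp⟩ := Nat.exists_infinite_primes (x.natAbs + 1)
    have hmax : (Ideal.span {(p : ℤ)}).IsMaximal :=
      PrincipalIdealRing.isMaximal_of_irreducible (Nat.prime_iff_prime_int.1 hp).irreducible
    have h1 : x ∈ Ideal.span {(p : ℤ)} := by
      rw [Ideal.jacobson, Submodule.mem_sInf] at hx
      exact hx _ ⟨bot_le, hmax⟩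
    rw [Ideal.mem_span_singleton] at h1
    have h2 : p ∣ x.natAbs := Int.natCast_dvd.1 h1
    have h3 := Nat.le_of_dvd (Int.natAbs_pos.2 hx0) h2
    omega
  · have hmax : P.IsMaximal := IsPrime.to_maximal_ideal h0
    exact le_antisymm (by
      rw [Ideal.jacobson]
      exact sInf_le ⟨le_rfl, hmax⟩) Ideal.le_jacobson

/-- a field that is finitely generated as a ring is finite -/
theorem finite_of_finiteType (k : Type*) [Field k] [Algebra.FiniteType ℤ k] : Finite k := by
  have := jacobson_int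
  have hfin : Module.Finite ℤ k := finite_of_finite_type_of_isJacobsonRing ℤ k
  have hint : Algebra.IsIntegral ℤ k := inferInstance
  have hchar : ¬ CharZero k := by
    intro hc
    have hinj : Function.Injective (algebraMap ℤ k) := by
      rw [algebraMap_int_eq]
      exact RingHom.injective_int _
    have := isField_of_isIntegral_of_isField hinj (Field.toIsField k)
    exact Int.not_isField this
  obtain ⟨p, hp⟩ := CharP.exists k
  have hp0 : p ≠ 0 := by
    intro h0
    subst h0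
    exact hchar (CharP.charP_to_charZero k)
  refine Module.finite_of_fg_torsion k ?_
  intro x
  refine ⟨⟨(p : ℤ), mem_nonZeroDivisors_of_ne_zero (by exact_mod_cast hp0)⟩, ?_⟩
  show (p : ℤ) • x = 0
  rw [zsmul_eq_mul]
  simp

theorem finite_of_finiteType' (k : Type*) [Field k] (h : (Int.castRingHom k).FiniteType) :
    Finite k := by
  have h1 : Algebra.FiniteType ℤ k := by
    rw [← RingHom.finiteType_algebraMap, algebraMap_int_eq]
    exact h
  exact finite_of_finiteType k

section cong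

variable {K A : Type*} [Group K] [CommRing A] {d : ℕ}

/-- the congruence subgroup of an ideal -/
def cg (Φ : K →* Matrix (Fin d) (Fin d) A) (I : Ideal A) : Subgroup K :=
  (((Ideal.Quotient.mk I).mapMatrix : Matrix (Fin d) (Fin d) A →+* Matrix (Fin d) (Fin d) (A ⧸ I)).toMonoidHom.comp Φ).ker

theorem map_eq_iff (I : Ideal A) (M M' : Matrix (Fin d) (Fin d) A) :
    (Ideal.Quotient.mk I).mapMatrix M = (Ideal.Quotient.mk I).mapMatrix M' ↔ ∀ i j, M i j - M' i j ∈ I := by
  constructor
  · intro h i j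
    have := congrFun (congrFun h i) j
    exact Ideal.Quotient.eq.1 this
  · intro h
    ext i j
    exact Ideal.Quotient.eq.2 (h i j)

theorem mem_cg {Φ : K →* Matrix (Fin d) (Fin d) A} {I : Ideal A} {x : K} :
    x ∈ cg Φ I ↔ ∀ i j, Φ x i j - (1 : Matrix (Fin d) (Fin d) A) i j ∈ I := by
  rw [← map_eq_iff, map_one]
  rfl

instance cg_normal (Φ : K →* Matrix (Fin d) (Fin d) A) (I : Ideal A) : (cg Φ I).Normal := by
  unfold cg
  infer_instance

theorem cg_finiteIndex (Φ : K →* Matrix (Fin d) (Fin d) A) (I : Ideal A) [Finite (A ⧸ I)] :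
    (cg Φ I).FiniteIndex := by
  have e : cg Φ I = (MonoidHom.toHomUnits
      (((Ideal.Quotient.mk I).mapMatrix : Matrix (Fin d) (Fin d) A →+*
        Matrix (Fin d) (Fin d) (A ⧸ I)).toMonoidHom.comp Φ)).ker := by
    ext x
    rw [cg, MonoidHom.mem_ker, MonoidHom.mem_ker, Units.ext_iff]
    rfl
  rw [e]
  infer_instance

/-- the lower central series of a congruence subgroup -/
theorem cg_lcs (Φ : K →* Matrix (Fin d) (Fin d) A) (m : Ideal A) (K₁ : Subgroup K) (hK : K₁ ≤ cg Φ m) (n : ℕ) :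
    K₁.lowerCentralSeries n ≤ cg Φ (m ^ (n + 1)) := by
  induction n with
  | zero =>
    rw [Subgroup.lowerCentralSeries_zero, zero_add, pow_one]
    exact hK
  | succ n ih =>
    rw [Subgroup.lowerCentralSeries_succ, Subgroup.commutator_le]
    intro x hx y hy
    have hx' := mem_cg.1 (ih hx)
    have hy' := mem_cg.1 (hK hy)
    have hcom : (Ideal.Quotient.mk (m ^ (n + 1 + 1))).mapMatrix (Φ (x * y)) =
        (Ideal.Quotient.mk (m ^ (n + 1 + 1))).mapMatrix (Φ (y * x)) := by
      rw [map_eq_iff]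
      intro i j
      have e : Φ (x * y) - Φ (y * x) = (Φ x - 1) * (Φ y - 1) - (Φ y - 1) * (Φ x - 1) := by
        rw [map_mul, map_mul]
        noncomm_ring
      have e' : Φ (x * y) i j - Φ (y * x) i j = ((Φ x - 1) * (Φ y - 1)) i j - ((Φ y - 1) * (Φ x - 1)) i j := by
        rw [← Matrix.sub_apply, ← Matrix.sub_apply, e]
      rw [e', Matrix.mul_apply, Matrix.mul_apply, pow_succ]
      refine Ideal.sub_mem _ (Ideal.sum_mem _ fun k _ => ?_) (Ideal.sum_mem _ fun k _ => ?_)
      · exact Ideal.mul_mem_mul (hx' i k) (hy' k j)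
      · rw [mul_comm (m ^ (n + 1)) m]
        exact Ideal.mul_mem_mul (hy' i k) (hx' k j)
    have h3 : ⁅x, y⁆ = (x * y) * (y * x)⁻¹ := by
      rw [commutatorElement_def]
      group
    show (((Ideal.Quotient.mk (m ^ (n + 1 + 1))).mapMatrix :
      Matrix (Fin d) (Fin d) A →+* Matrix (Fin d) (Fin d) (A ⧸ m ^ (n + 1 + 1))).toMonoidHom.comp Φ) ⁅x, y⁆ = 1
    rw [h3, map_mul]
    have h4 : (((Ideal.Quotient.mk (m ^ (n + 1 + 1))).mapMatrix :
      Matrix (Fin d) (Fin d) A →+* Matrix (Fin d) (Fin d) (A ⧸ m ^ (n + 1 + 1))).toMonoidHom.comp Φ) (x * y) =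
      (((Ideal.Quotient.mk (m ^ (n + 1 + 1))).mapMatrix :
      Matrix (Fin d) (Fin d) A →+* Matrix (Fin d) (Fin d) (A ⧸ m ^ (n + 1 + 1))).toMonoidHom.comp Φ) (y * x) := hcom
    rw [h4, ← map_mul, mul_inv_cancel, map_one]

/-- one subgroup of finite index for all specialisations of a matrix representation over a finitely generated
ring -/
theorem spec (hA : (Int.castRingHom A).FiniteType) (Φ : K →* Matrix (Fin d) (Fin d) A) :
    ∃ K₁ : Subgroup K, K₁.Normal ∧ K₁.FiniteIndex ∧
      ∀ x : K, (∀ n, x ∈ K₁.lowerCentralSeries n) →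
        ∀ (F : Type*) [CommRing F] [IsDomain F] (ε : A →+* F) (i j : Fin d), ε (Φ x i j) = ε ((1 : Matrix (Fin d) (Fin d) A) i j) := by
  have hAft : Algebra.FiniteType ℤ A := by
    rw [← RingHom.finiteType_algebraMap, algebraMap_int_eq]
    exact hA
  have hN : IsNoetherianRing A := Algebra.FiniteType.isNoetherianRing ℤ A
  have hfin : (minimalPrimes A).Finite := minimalPrimes.finite_of_isNoetherianRing A
  have hch : ∀ p : minimalPrimes A, ∃ m : Ideal A, m.IsMaximal ∧ (p : Ideal A) ≤ m := by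
    intro p
    have hp : (p : Ideal A).IsPrime := p.2.1.1
    obtain ⟨m, hm, hle⟩ := Ideal.exists_le_maximal (p : Ideal A) hp.ne_top
    exact ⟨m, hm, hle⟩
  choose m hm hpm using hch
  have hfi : Finite (minimalPrimes A) := hfin
  have hres : ∀ p, Finite (A ⧸ m p) := by
    intro p
    have := hm p
    have h2 := hA.comp_surjective (g := Ideal.Quotient.mk (m p)) Ideal.Quotient.mk_surjective
    have h3 : (Ideal.Quotient.mk (m p)).comp (Int.castRingHom A) = Int.castRingHom (A ⧸ m p) := RingHom.ext_int _ _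
    rw [h3] at h2
    exact @finite_of_finiteType' (A ⧸ m p) (Ideal.Quotient.field (m p)) h2
  refine ⟨⨅ p, cg Φ (m p), ?_, ?_, ?_⟩
  · exact Subgroup.normal_iInf_normal fun p => cg_normal Φ (m p)
  · have := fun p => cg_finiteIndex Φ (m p)
    exact Subgroup.finiteIndex_iInf this
  · intro x hx F _ _ ε i j
    have hker : (RingHom.ker ε).IsPrime := RingHom.ker_isPrime ε
    obtain ⟨p, hp, hple⟩ := Ideal.exists_minimalPrimes_le (I := (⊥ : Ideal A)) (J := RingHom.ker ε) bot_le
    have hpp : p.IsPrime := hp.1.1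
    have hle := hpm ⟨p, hp⟩
    have hmm := hm ⟨p, hp⟩
    obtain ⟨M, hM⟩ : ∃ M : Ideal A, M = m ⟨p, hp⟩ := ⟨_, rfl⟩
    rw [← hM] at hle hmm
    have h1 : ∀ n, Φ x i j - (1 : Matrix (Fin d) (Fin d) A) i j ∈ M ^ (n + 1) := by
      intro n
      have h2 := cg_lcs Φ M (⨅ p, cg Φ (m p)) (by rw [hM]; exact iInf_le _ _) n (hx n)
      exact mem_cg.1 h2 i j
    have hD : IsDomain (A ⧸ p) := Ideal.Quotient.isDomain p
    have htop : M.map (Ideal.Quotient.mk p) ≠ ⊤ := by
      intro ht
      have h3 := Ideal.comap_map_of_surjective (Ideal.Quotient.mk p) Ideal.Quotient.mk_surjective M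
      rw [ht, Ideal.comap_top, ← RingHom.ker_eq_comap_bot, Ideal.mk_ker, sup_eq_left.2 hle] at h3
      exact hmm.ne_top h3.symm
    have h4 := Ideal.iInf_pow_eq_bot_of_isDomain (M.map (Ideal.Quotient.mk p)) htop
    have h5 : Ideal.Quotient.mk p (Φ x i j - (1 : Matrix (Fin d) (Fin d) A) i j) ∈
        ⨅ n : ℕ, (M.map (Ideal.Quotient.mk p)) ^ n := by
      rw [Submodule.mem_iInf]
      intro n
      rw [← Ideal.map_pow]
      exact Ideal.mem_map_of_mem _ (Ideal.pow_le_pow_right (Nat.le_succ n) (h1 n))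
    rw [h4, Ideal.mem_bot, Ideal.Quotient.eq_zero_iff_mem] at h5
    have h6 := hple h5
    rw [RingHom.mem_ker, map_sub, sub_eq_zero] at h6
    exact h6

end cong

section universal

universe u v

variable {K : Type u} [Group K] {d : ℕ}

/-- the evaluation of the matrix entries -/
noncomputable def ev (T : Finset K) {F : Type v} [Field F] (ρ : K →* Matrix (Fin d) (Fin d) F) :
    MvPolynomial (T × Fin d × Fin d) ℤ →+* F :=
  MvPolynomial.eval₂Hom (Int.castRingHom F) fun v => ρ (v.1 : K) v.2.1 v.2.2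

/-- the relations that hold in all representations over fields -/
noncomputable def JJ (T : Finset K) (d : ℕ) : Ideal (MvPolynomial (T × Fin d × Fin d) ℤ) :=
  sInf {I | ∃ (F : Type v) (_ : Field F) (ρ : K →* Matrix (Fin d) (Fin d) F), I = RingHom.ker (ev T ρ)}

theorem JJ_le (T : Finset K) {F : Type v} [Field F] (ρ : K →* Matrix (Fin d) (Fin d) F) :
    ∀ a ∈ JJ.{u, v} T d, ev T ρ a = 0 := by
  intro a ha
  have h1 : JJ.{u, v} T d ≤ RingHom.ker (ev T ρ) := sInf_le ⟨F, inferInstance, ρ, rfl⟩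
  exact h1 ha

/-- the evaluation on the universal ring -/
noncomputable def ev' (T : Finset K) {F : Type v} [Field F] (ρ : K →* Matrix (Fin d) (Fin d) F) :
    (MvPolynomial (T × Fin d × Fin d) ℤ ⧸ JJ.{u, v} T d) →+* F :=
  Ideal.Quotient.lift (JJ.{u, v} T d) (ev T ρ) (JJ_le T ρ)

theorem ev'_mk (T : Finset K) {F : Type v} [Field F] (ρ : K →* Matrix (Fin d) (Fin d) F)
    (a : MvPolynomial (T × Fin d × Fin d) ℤ) : ev' T ρ (Ideal.Quotient.mk _ a) = ev T ρ a := rfl

theorem ev'_inj (T : Finset K) (a : MvPolynomial (T × Fin d × Fin d) ℤ ⧸ JJ.{u, v} T d)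
    (h : ∀ (F : Type v) [Field F] (ρ : K →* Matrix (Fin d) (Fin d) F), ev' T ρ a = 0) : a = 0 := by
  obtain ⟨q, rfl⟩ := Ideal.Quotient.mk_surjective a
  rw [Ideal.Quotient.eq_zero_iff_mem, JJ, Submodule.mem_sInf]
  rintro I ⟨F, _, ρ, rfl⟩
  exact h F ρ

/-- `M` is the universal matrix of `k` -/
def Rep (T : Finset K) (k : K) (M : Matrix (Fin d) (Fin d) (MvPolynomial (T × Fin d × Fin d) ℤ ⧸ JJ.{u, v} T d)) :
    Prop :=
  ∀ (F : Type v) [Field F] (ρ : K →* Matrix (Fin d) (Fin d) F), (ev' T ρ).mapMatrix M = ρ k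

theorem rep_unique (T : Finset K) (k : K)
    {M M' : Matrix (Fin d) (Fin d) (MvPolynomial (T × Fin d × Fin d) ℤ ⧸ JJ.{u, v} T d)}
    (h : Rep T k M) (h' : Rep T k M') : M = M' := by
  ext i j
  rw [← sub_eq_zero]
  apply ev'_inj
  intro F _ ρ
  have h1 := h F ρ
  rw [← h' F ρ] at h1
  have h2 := congrFun (congrFun h1 i) j
  rw [map_sub, sub_eq_zero]
  exact h2

theorem rep_exists (T : Finset K) (hT : Submonoid.closure (T : Set K) = ⊤) (k : K) :
    ∃ M : Matrix (Fin d) (Fin d) (MvPolynomial (T × Fin d × Fin d) ℤ ⧸ JJ.{u, v} T d), Rep T k M := by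
  have hk : k ∈ Submonoid.closure (T : Set K) := by rw [hT]; trivial
  induction hk using Submonoid.closure_induction with
  | mem x hx =>
    refine ⟨fun i j => Ideal.Quotient.mk _ (MvPolynomial.X (⟨x, hx⟩, i, j)), ?_⟩
    intro F _ ρ
    ext i j
    show ev' T ρ (Ideal.Quotient.mk _ (MvPolynomial.X (⟨x, hx⟩, i, j))) = ρ x i j
    rw [ev'_mk, ev]
    simp
  | one =>
    refine ⟨1, ?_⟩
    intro F _ ρ
    rw [map_one, map_one]
  | mul x y _ _ hx hy =>
    obtain ⟨M, hM⟩ := hx
    obtain ⟨M', hM'⟩ := hy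
    refine ⟨M * M', ?_⟩
    intro F _ ρ
    rw [map_mul, map_mul, hM F ρ, hM' F ρ]

/-- One subgroup of finite index for all matrix representations of degree `d` over fields. -/
theorem linear' (K : Type u) [Group K] [Group.FG K] (d : ℕ) :
    ∃ K₁ : Subgroup K, K₁.Normal ∧ K₁.FiniteIndex ∧
      ∀ x : K, (∀ n, x ∈ K₁.lowerCentralSeries n) →
        ∀ (F : Type v) [Field F] (ρ : K →* Matrix (Fin d) (Fin d) F), ρ x = 1 := by
  obtain ⟨T, hT⟩ := (Group.fg_iff_monoid_fg.1 (inferInstance : Group.FG K)).fg_top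
  have hex := rep_exists.{u, v} (d := d) T hT
  choose Φ hΦ using hex
  let Ψ : K →* Matrix (Fin d) (Fin d) (MvPolynomial (T × Fin d × Fin d) ℤ ⧸ JJ.{u, v} T d) :=
    { toFun := Φ
      map_one' := rep_unique T 1 (hΦ 1) (by
        intro F _ ρ
        rw [map_one, map_one])
      map_mul' := fun x y => rep_unique T (x * y) (hΦ (x * y)) (by
        intro F _ ρ
        rw [map_mul, map_mul, hΦ x F ρ, hΦ y F ρ]) }
  have hft : (Int.castRingHom (MvPolynomial (T × Fin d × Fin d) ℤ ⧸ JJ.{u, v} T d)).FiniteType := by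
    have h1 : (Int.castRingHom (MvPolynomial (T × Fin d × Fin d) ℤ)).FiniteType := by
      have h2 : (algebraMap ℤ (MvPolynomial (T × Fin d × Fin d) ℤ)).FiniteType :=
        (RingHom.finiteType_algebraMap).2 inferInstance
      have h3 : algebraMap ℤ (MvPolynomial (T × Fin d × Fin d) ℤ) = Int.castRingHom _ := RingHom.ext_int _ _
      rw [h3] at h2
      exact h2
    have h4 := h1.comp_surjective (g := Ideal.Quotient.mk (JJ.{u, v} T d)) Ideal.Quotient.mk_surjective
    have h5 : (Ideal.Quotient.mk (JJ.{u, v} T d)).comp (Int.castRingHom (MvPolynomial (T × Fin d × Fin d) ℤ)) =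
        Int.castRingHom _ := RingHom.ext_int _ _
    rw [h5] at h4
    exact h4
  obtain ⟨K₁, hn, hf, hK⟩ := spec hft Ψ
  refine ⟨K₁, hn, hf, fun x hx F _ ρ => ?_⟩
  ext i j
  have h1 := hK x hx F (ev' T ρ) i j
  have h2 : ev' T ρ (Ψ x i j) = ρ x i j := congrFun (congrFun (hΦ x F ρ) i) j
  rw [← h2, h1]
  have h3 : (ev' T ρ).mapMatrix (1 : Matrix (Fin d) (Fin d) (MvPolynomial (T × Fin d × Fin d) ℤ ⧸ JJ.{u, v} T d)) = 1 :=
    map_one _
  exact congrFun (congrFun h3 i) j

/-- The same for homomorphisms to `GL_d(F)`. -/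
theorem linear (K : Type u) [Group K] [Group.FG K] (d : ℕ) :
    ∃ K₁ : Subgroup K, K₁.Normal ∧ K₁.FiniteIndex ∧
      ∀ x : K, (∀ n, x ∈ K₁.lowerCentralSeries n) →
        ∀ (F : Type v) [Field F] (ρ : K →* Matrix.GeneralLinearGroup (Fin d) F), ρ x = 1 := by
  obtain ⟨K₁, hn, hf, hK⟩ := linear'.{u, v} K d
  refine ⟨K₁, hn, hf, fun x hx F _ ρ => ?_⟩
  have h1 := hK x hx F ((Units.coeHom _).comp ρ)
  exact Units.ext h1

end universal

end Pool.Agent.H89.LI
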